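import Mathlib

set_option linter.unusedVariables false

namespace Pool.Agent.Results.MP_46c8ea_co.ClosedForm

open Finset

/-- the vertex `j(t)` of the walk with steps `x` starting from `-n` -/
def vtx (n : ℤ) (x : List ℤ) (t : ℕ) : ℤ := -n + (x.take t).sum

/-- admissible walks from `-n` to `n` with steps `-2`, `4` and exactly `κ` steps `-2` -/
def walks (n : ℤ) (κ : ℕ) : Set (List ℤ) :=
  {x | 2 ≤ x.length ∧ (∀ s ∈ x, s = -2 ∨ s = 4) ∧ x.sum = 2 * n ∧ x.count (-2) = κ ∧
    ∀ t : ℕ, 1 ≤ t → t < x.length → vtx n x t ≠ n ∧ vtx n x t ≠ -n}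

/-- the weight of a walk -/
noncomputable def h1 (n : ℤ) (x : List ℤ) : ℝ :=
  ∏ t ∈ Finset.Ico 1 x.length, 1 / ((n : ℝ) ^ 2 - (vtx n x t : ℝ) ^ 2)

/-- the weighted sum over walks -/
noncomputable def B (κ : ℕ) (n : ℤ) : ℝ := ∑ᶠ x ∈ walks n κ, h1 n x

noncomputable def w (n j : ℤ) : ℝ := 1 / ((n : ℝ) ^ 2 - (j : ℝ) ^ 2)

noncomputable def full (n : ℤ) : List ℤ → ℝ
  | [] => 1
  | s :: x => w n (n - s - x.sum) * full n x

lemma prod_eq_full (n : ℤ) (y : List ℤ) : ∀ p : ℤ, p + y.sum = n →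
    ∏ t ∈ range y.length, w n (p + (y.take t).sum) = full n y := by
  induction y with
  | nil => intro p _; simp [full]
  | cons s y ih =>
    intro p hp
    rw [List.sum_cons] at hp
    rw [List.length_cons, prod_range_succ', full, ← ih (p + s) (by omega), mul_comm]
    congr 1
    · congr 1; simp; omega
    · refine prod_congr rfl fun t _ => ?_
      simp [add_assoc]

lemma h1_cons (n s : ℤ) (y : List ℤ) (h : s + y.sum = 2 * n) : h1 n (s :: y) = full n y := by
  rw [← prod_eq_full n y (-n + s) (by omega), h1, prod_Ico_eq_prod_range]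
  simp only [List.length_cons, Nat.add_sub_cancel]
  refine prod_congr rfl fun t _ => ?_
  rw [add_comm 1 t]
  simp [w, vtx, add_assoc]

def T : ℕ → Finset (List ℤ)
  | 0 => {[]}
  | L + 1 => (T L).image (List.cons 4) ∪ (T L).image (List.cons (-2))

lemma mem_T (L : ℕ) : ∀ x : List ℤ, x ∈ T L ↔ x.length = L ∧ ∀ s ∈ x, s = -2 ∨ s = 4 := by
  induction L with
  | zero =>
    intro x
    simp only [T, mem_singleton, List.length_eq_zero_iff]
    constructor
    · rintro rfl; simp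
    · exact fun h => h.1
  | succ L ih =>
    intro x
    simp only [T, mem_union, mem_image, ih]
    constructor
    · rintro (⟨y, ⟨h1, h2⟩, rfl⟩ | ⟨y, ⟨h1, h2⟩, rfl⟩)
      · exact ⟨by simp [h1], by simpa using h2⟩
      · exact ⟨by simp [h1], by simpa using h2⟩
    · rintro ⟨h1, h2⟩
      cases x with
      | nil => simp at h1
      | cons s y =>
        have h3 : y.length = L := by simpa using h1
        have h4 : ∀ s ∈ y, s = -2 ∨ s = 4 := fun t ht => h2 t (List.mem_cons_of_mem _ ht)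
        rcases h2 s List.mem_cons_self with rfl | rfl
        · exact Or.inr ⟨y, ⟨h3, h4⟩, rfl⟩
        · exact Or.inl ⟨y, ⟨h3, h4⟩, rfl⟩

lemma sum_T_succ (L : ℕ) (f : List ℤ → ℝ) :
    ∑ x ∈ T (L + 1), f x = ∑ x ∈ T L, f (4 :: x) + ∑ x ∈ T L, f (-2 :: x) := by
  rw [T, sum_union, sum_image, sum_image]
  · intro x _ y _ h; simpa using h
  · intro x _ y _ h; simpa using h
  · rw [disjoint_left]
    intro x h1 h2
    obtain ⟨y, _, rfl⟩ := mem_image.1 h1
    obtain ⟨z, _, h⟩ := mem_image.1 h2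
    simp at h

lemma sum_steps (x : List ℤ) (h : ∀ s ∈ x, s = -2 ∨ s = 4) :
    x.sum = 4 * (x.length : ℤ) - 6 * (x.count (-2) : ℤ) := by
  induction x with
  | nil => simp
  | cons s y ih =>
    have h4 : ∀ s ∈ y, s = -2 ∨ s = 4 := fun t ht => h t (List.mem_cons_of_mem _ ht)
    rw [List.sum_cons, ih h4]
    rcases h s List.mem_cons_self with rfl | rfl
    · simp; ring
    · simp; ring

noncomputable def g (n : ℤ) (L d : ℕ) : ℝ :=
  ∑ x ∈ T L, if x.count (-2) = d then full n x else 0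

lemma g_zero_of_lt (n : ℤ) (L d : ℕ) (h : L < d) : g n L d = 0 := by
  refine sum_eq_zero fun x hx => if_neg ?_
  have := ((mem_T L x).1 hx).1
  have := List.count_le_length (a := (-2 : ℤ)) (l := x)
  omega

lemma g_succ_zero (n : ℤ) (L : ℕ) :
    g n (L + 1) 0 = w n (n - 4 * (L + 1)) * g n L 0 := by
  rw [g, sum_T_succ, g, mul_sum]
  have : ∑ x ∈ T L, (if (-2 :: x).count (-2) = 0 then full n (-2 :: x) else 0) = 0 :=
    sum_eq_zero fun x _ => if_neg (by simp)
  rw [this, add_zero]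
  refine sum_congr rfl fun x hx => ?_
  obtain ⟨h1, h2⟩ := (mem_T L x).1 hx
  have hc : (4 :: x).count (-2 : ℤ) = x.count (-2) := by simp
  rw [hc]
  split_ifs with h
  · rw [full, sum_steps x h2, h, h1]
    congr 2; push_cast; ring
  · simp

lemma g_succ_succ (n : ℤ) (L d : ℕ) :
    g n (L + 1) (d + 1) = w n (n - 4 * (L + 1) + 6 * (d + 1)) * (g n L (d + 1) + g n L d) := by
  rw [g, sum_T_succ, g, g, mul_add, mul_sum, mul_sum]
  congr 1
  · refine sum_congr rfl fun x hx => ?_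
    obtain ⟨h1, h2⟩ := (mem_T L x).1 hx
    have hc : (4 :: x).count (-2 : ℤ) = x.count (-2) := by simp
    rw [hc]
    split_ifs with h
    · rw [full, sum_steps x h2, h, h1]
      congr 2; push_cast; ring
    · simp
  · refine sum_congr rfl fun x hx => ?_
    obtain ⟨h1, h2⟩ := (mem_T L x).1 hx
    have hc : (-2 :: x).count (-2 : ℤ) = x.count (-2) + 1 := by simp
    rw [hc]
    by_cases h : x.count (-2) = d
    · rw [if_pos (by omega), if_pos h, full, sum_steps x h2, h, h1]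
      congr 2; ring
    · rw [if_neg (by omega), if_neg h]; simp

lemma B_eq (m : ℕ) : B 3 (2 * m + 1) = g (2 * m + 1) (m + 4) 3 + g (2 * m + 1) (m + 4) 2 := by
  have h : B 3 (2 * m + 1) =
      ∑ x ∈ (T (m + 5)).filter (fun x => x.count (-2) = 3), h1 (2 * m + 1) x := by
    refine finsum_mem_eq_sum_of_inter_support_eq _ ?_
    ext x
    simp only [Set.mem_inter_iff, coe_filter, Set.mem_ofPred_eq, mem_T, walks,
      Function.mem_support]
    constructor
    · rintro ⟨⟨a, b, c, d, e⟩, f⟩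
      refine ⟨⟨⟨?_, b⟩, d⟩, f⟩
      have := sum_steps x b
      rw [c, d] at this
      omega
    · rintro ⟨⟨⟨a, b⟩, d⟩, f⟩
      refine ⟨⟨by omega, b, ?_, d, fun t ht1 ht2 => ?_⟩, f⟩
      · rw [sum_steps x b, a, d]; push_cast; ring
      · have := prod_ne_zero_iff.1 f t (mem_Ico.2 ⟨ht1, ht2⟩)
        constructor
        · intro hv; rw [hv] at this; simp at this
        · intro hv; rw [hv] at this
          apply this
          rw [Int.cast_neg, neg_sq, sub_self, div_zero]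
  rw [h, sum_filter, sum_T_succ, g, g]
  congr 1
  · refine sum_congr rfl fun x hx => ?_
    obtain ⟨h1, h2⟩ := (mem_T _ x).1 hx
    have hc : (4 :: x).count (-2 : ℤ) = x.count (-2) := by simp
    rw [hc]
    split_ifs with h
    · apply h1_cons
      rw [sum_steps x h2, h, h1]; push_cast; ring
    · rfl
  · refine sum_congr rfl fun x hx => ?_
    obtain ⟨h1, h2⟩ := (mem_T _ x).1 hx
    have hc : (-2 :: x).count (-2 : ℤ) = x.count (-2) + 1 := by simp
    rw [hc]
    by_cases h : x.count (-2) = 2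
    · rw [if_pos (by omega), if_pos h]
      apply h1_cons
      rw [sum_steps x h2, h, h1]; push_cast; ring
    · rw [if_neg (by omega), if_neg h]

lemma tele (M : ℕ) (a p q p' q' : ℕ → ℝ) (hp0 : p 0 = a 0 * q 0)
    (hp : ∀ u, u ≤ M → p (u + 1) = a (u + 1) * (p u + q (u + 1)))
    (hp0' : p' 0 = a (M + 1) * q' 0)
    (hp' : ∀ v u, v + u = M → p' (v + 1) = a u * (p' v + q' (v + 1))) :
    ∑ u ∈ range (M + 2), q u * p' (M + 1 - u) = ∑ u ∈ range (M + 2), p u * q' (M + 1 - u) := by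
  have key : ∀ k, k ≤ M → ∑ u ∈ range (k + 1), (q u * p' (M + 1 - u) - p u * q' (M + 1 - u))
      = p k * p' (M - k) := by
    intro k
    induction k with
    | zero =>
      intro _
      simp only [zero_add, range_one, sum_singleton, Nat.sub_zero]
      rw [hp' M 0 rfl, hp0]; ring
    | succ k ih =>
      intro hk
      rw [sum_range_succ, ih (by omega)]
      have e1 : M + 1 - (k + 1) = M - (k + 1) + 1 := by omega
      have e2 : M - k = M - (k + 1) + 1 := by omega
      rw [e1, e2, hp' (M - (k + 1)) (k + 1) (by omega), hp k (by omega)]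
      ring
  rw [← sub_eq_zero, ← sum_sub_distrib, sum_range_succ, key M le_rfl]
  simp only [Nat.sub_self]
  rw [hp M le_rfl, hp0']; ring

noncomputable def G (m u d : ℕ) : ℝ := g (2 * m + 1) (u + d) d

noncomputable def W (m u d : ℕ) : ℝ :=
  1 / (4 * (2 * (u : ℝ) - d) * (2 * (m : ℝ) + 1 - 2 * u + d))

lemma w_eq (m u d : ℕ) (j : ℤ) (h : j = 2 * m + 1 - 4 * u + 2 * d) :
    w (2 * m + 1) j = W m u d := by
  subst h
  simp only [w, W]
  push_cast
  congr 1; ring

lemma G00 (m : ℕ) : G m 0 0 = 1 := by simp [G, g, T, full]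

lemma Gs0 (m u : ℕ) : G m (u + 1) 0 = W m (u + 1) 0 * G m u 0 := by
  simp only [G, add_zero]
  rw [g_succ_zero, w_eq m (u + 1) 0 _ (by push_cast; ring)]

lemma G0s (m d : ℕ) : G m 0 (d + 1) = W m 0 (d + 1) * G m 0 d := by
  simp only [G, zero_add]
  rw [g_succ_succ, w_eq m 0 (d + 1) _ (by push_cast; ring), g_zero_of_lt _ d (d + 1) (by omega),
    zero_add]

lemma Gss (m u d : ℕ) :
    G m (u + 1) (d + 1) = W m (u + 1) (d + 1) * (G m u (d + 1) + G m (u + 1) d) := by
  simp only [G]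
  rw [show u + 1 + (d + 1) = (u + (d + 1)) + 1 by ring, g_succ_succ,
    w_eq m (u + 1) (d + 1) _ (by push_cast; ring), show u + 1 + d = u + (d + 1) by ring]

lemma W_symm (m u v d e : ℕ) (h1 : u + v = m + 2) (h2 : d + e = 3) : W m u d = W m v e := by
  have h1' : (v : ℝ) = m + 2 - u := by
    have : ((u + v : ℕ) : ℝ) = ((m + 2 : ℕ) : ℝ) := by rw [h1]
    push_cast at this; linarith
  have h2' : (e : ℝ) = 3 - d := by
    have : ((d + e : ℕ) : ℝ) = ((3 : ℕ) : ℝ) := by rw [h2]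
    push_cast at this; linarith
  simp only [W, h1', h2']
  congr 1; ring

lemma B_conv (m : ℕ) :
    B 3 (2 * m + 1) = ∑ u ∈ range (m + 3), G m u 1 * G m (m + 2 - u) 1 := by
  have hB : B 3 (2 * m + 1) = G m (m + 1) 3 + G m (m + 2) 2 := B_eq m
  have t1 := tele (m + 1) (fun u => if u = m + 2 then 1 else W m u 3)
    (fun u => if u = m + 2 then B 3 (2 * m + 1) else G m u 3) (fun u => G m u 2)
    (fun v => G m v 0) (fun v => if v = 0 then 1 else 0)
    (by simp only [if_neg (show (0 : ℕ) ≠ m + 2 by omega)]; exact G0s m 2)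
    (by
      intro u hu
      by_cases h : u + 1 = m + 2
      · have h' : u = m + 1 := by omega
        subst h'
        simp only [if_neg (show m + 1 ≠ m + 2 by omega), if_true, one_mul]
        exact hB
      · simp only [if_neg h, if_neg (show u ≠ m + 2 by omega)]
        exact Gss m u 2)
    (by simp [G00])
    (by
      intro v u h
      simp only [if_neg (show u ≠ m + 2 by omega), if_neg (show v + 1 ≠ 0 by omega), add_zero]
      rw [Gs0, W_symm m (v + 1) u 0 3 (by omega) rfl])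
  have t2 := tele (m + 1) (fun u => W m u 2) (fun u => G m u 2) (fun u => G m u 1)
    (fun v => G m v 1) (fun v => G m v 0) (G0s m 1) (fun u _ => Gss m u 1)
    (by rw [G0s, W_symm m 0 (m + 1 + 1) (0 + 1) 2 (by omega) rfl])
    (by
      intro v u h
      rw [Gss, W_symm m (v + 1) u (0 + 1) 2 (by omega) rfl])
  refine Eq.trans ?_ t2.symm
  refine Eq.trans ?_ t1.symm
  rw [sum_range_succ, sum_eq_zero]
  · simp
  · intro u hu
    have := mem_range.1 hu
    rw [if_neg (show m + 1 + 1 - u ≠ 0 by omega), mul_zero]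

lemma odd_ne (m u : ℕ) : 2 * (m : ℝ) + 1 - 2 * u ≠ 0 := by
  intro h
  have : ((2 * m + 1 : ℕ) : ℝ) = ((2 * u : ℕ) : ℝ) := by push_cast; linarith
  have := Nat.cast_injective this
  omega

lemma E_rec (m u : ℕ) :
    G m u 0 = 8 * ((u : ℝ) + 1) * (2 * m + 1 - 2 * ((u : ℝ) + 1)) * G m (u + 1) 0 := by
  have h := odd_ne m (u + 1)
  push_cast at h
  rw [Gs0, W]
  push_cast
  simp only [sub_zero, add_zero]
  generalize 2 * (m : ℝ) + 1 - 2 * (u + 1) = D at h
  field_simp
  ring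

noncomputable def R (m u : ℕ) : ℝ := (2 * (u : ℝ) - m) / (8 * m * (m + 1))

lemma F_eq (m : ℕ) (hm : 1 ≤ m) (u : ℕ) : u ≤ m → G m u 1 = R m u * G m u 0 := by
  have hm' : (0 : ℝ) < m := by exact_mod_cast hm
  induction u with
  | zero =>
    intro _
    rw [G0s, W, R]
    congr 1
    push_cast
    rw [show (2 * (m : ℝ) + 1 - 2 * 0 + 1) = 2 * (m + 1) by ring]
    field_simp
    ring
  | succ u ih =>
    intro hu
    have hu' : (u : ℝ) + 1 ≤ m := by exact_mod_cast hu
    rw [Gss, ih (by omega), E_rec m u, W, R, R]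
    push_cast
    have h1 : (2 * ((u : ℝ) + 1) - 1) ≠ 0 := by
      have : (0 : ℝ) ≤ u := by positivity
      intro h; linarith
    have h2 : (2 * (m : ℝ) + 1 - 2 * (u + 1) + 1) ≠ 0 := by
      intro h; linarith
    rw [div_mul_eq_mul_div, one_mul, div_eq_iff (mul_ne_zero (mul_ne_zero (by norm_num) h1) h2)]
    field_simp
    ring

noncomputable def cc (N u : ℝ) : ℝ :=
  ((N ^ 5 - 11 * N ^ 3 + 42 * N ^ 2 + 28 * N - 24) +
    (-6 * N ^ 4 + 6 * N ^ 3 + 8 * N ^ 2 - 156 * N + 16) * u +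
    (12 * N ^ 3 - 24 * N ^ 2 + 60 * N + 96) * u ^ 2 + (-8 * N ^ 2 + 24 * N - 64) * u ^ 3)

lemma gosper (m : ℕ) (k : ℕ) : k ≤ m + 2 →
    ∑ u ∈ range (k + 1), (3 * ((m : ℝ) + 2) * (m + 1) * m * (m - 1)) *
      ((4 - (2 * (u : ℝ) - (m + 2)) ^ 2) * (G m u 0 * G m (m + 2 - u) 0)) =
    cc (m + 2) (k + 1) * (m + 2 - k) * (2 * k - 3) * (G m k 0 * G m (m + 2 - k) 0) := by
  induction k with
  | zero =>
    intro _
    simp only [zero_add, range_one, sum_singleton, cc]
    push_cast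
    ring
  | succ k ih =>
    intro hk
    rw [sum_range_succ, ih (by omega)]
    obtain ⟨v, hv⟩ : ∃ v, m + 2 = k + 1 + v := ⟨m + 2 - (k + 1), by omega⟩
    have e1 : m + 2 - k = v + 1 := by omega
    have e2 : m + 2 - (k + 1) = v := by omega
    have hv' : (v : ℝ) = m + 1 - k := by
      have : ((m + 2 : ℕ) : ℝ) = ((k + 1 + v : ℕ) : ℝ) := by rw [hv]
      push_cast at this; linarith
    rw [e1, e2, E_rec m k, E_rec m v, hv']
    simp only [cc]
    push_cast
    ring

lemma main_sum (m : ℕ) (hm : 2 ≤ m) :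
    ∑ u ∈ range (m + 3), R m u * G m u 0 * (R m (m + 2 - u) * G m (m + 2 - u) 0) = 0 := by
  have hm' : (2 : ℝ) ≤ m := by exact_mod_cast hm
  have h := gosper m (m + 2) le_rfl
  rw [← mul_sum] at h
  push_cast at h
  rw [sub_self, mul_zero, zero_mul, zero_mul] at h
  have hne : (3 * ((m : ℝ) + 2) * (m + 1) * m * (m - 1)) ≠ 0 := by
    have : (0 : ℝ) < m - 1 := by linarith
    positivity
  have h0 := (mul_eq_zero.1 h).resolve_left hne
  have : ∑ u ∈ range (m + 3), R m u * G m u 0 * (R m (m + 2 - u) * G m (m + 2 - u) 0) =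
      (1 / (8 * (m : ℝ) * (m + 1)) ^ 2) * ∑ u ∈ range (m + 2 + 1),
        ((4 - (2 * (u : ℝ) - (m + 2)) ^ 2) * (G m u 0 * G m (m + 2 - u) 0)) := by
    rw [mul_sum]
    refine sum_congr rfl fun u hu => ?_
    have hu' : u ≤ m + 2 := by have := mem_range.1 hu; omega
    simp only [R]
    rw [Nat.cast_sub hu']
    push_cast
    have : (0 : ℝ) < m := by linarith
    field_simp
    ring
  rw [this, h0, mul_zero]

lemma E_closed (m u : ℕ) : ∀ v, u + v = m →
    G m u 0 * (8 ^ u * u.factorial * ∏ i ∈ range m, (2 * (i : ℝ) + 1)) =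
      ∏ i ∈ range v, (2 * (i : ℝ) + 1) := by
  induction u with
  | zero => intro v h; simp [G00, ← h]
  | succ u ih =>
    intro v h
    have h1 := ih (v + 1) (by omega)
    have hv' : (m : ℝ) = u + 1 + v := by rw [← h]; push_cast; ring
    rw [E_rec m u, prod_range_succ] at h1
    have hne : (2 * (v : ℝ) + 1) ≠ 0 := by positivity
    apply mul_right_cancel₀ hne
    rw [← h1, Nat.factorial_succ]
    push_cast
    rw [hv']
    ring

lemma odd_prod (m : ℕ) :
    (2 : ℝ) ^ m * m.factorial * ∏ i ∈ range m, (2 * (i : ℝ) + 1) = (2 * m).factorial := by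
  induction m with
  | zero => simp
  | succ m ih =>
    rw [show 2 * (m + 1) = 2 * m + 1 + 1 by ring, Nat.factorial_succ (2 * m + 1),
      Nat.factorial_succ (2 * m), Nat.factorial_succ m, prod_range_succ]
    push_cast
    rw [← ih]; ring

lemma E_m (m : ℕ) : G m m 0 = 1 / (4 ^ m * ((2 * m).factorial : ℝ)) := by
  have h := E_closed m m 0 rfl
  rw [← odd_prod]
  simp only [range_zero, prod_empty] at h
  rw [show (8 : ℝ) = 4 * 2 by norm_num, mul_pow] at h
  rw [eq_div_iff (by positivity)]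
  linarith

lemma closed (m : ℕ) (hm : 2 ≤ m) : B 3 (2 * m + 1) =
    3 * ((m : ℝ) + 2) / (4 ^ (m + 5) * ((2 * m).factorial : ℝ) * (m : ℝ) ^ 2 * ((m : ℝ) + 1) ^ 3 *
      (2 * (m : ℝ) - 1) * (2 * (m : ℝ) + 3)) := by
  have hm' : (2 : ℝ) ≤ m := by exact_mod_cast hm
  have hdiff : ∑ u ∈ range (m + 3), (G m u 1 * G m (m + 2 - u) 1 -
      R m u * G m u 0 * (R m (m + 2 - u) * G m (m + 2 - u) 0)) = B 3 (2 * m + 1) := by
    rw [sum_sub_distrib, main_sum m hm, sub_zero, B_conv]
  obtain ⟨k, hk⟩ : ∃ k, m = k + 1 := ⟨m - 1, by omega⟩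
  have hr : m + 3 = k + 1 + 1 + 1 + 1 := by omega
  rw [← hdiff, hr, sum_range_succ, sum_range_succ, sum_range_succ', sum_range_succ',
    sum_eq_zero]
  · have e1 : k + 1 + 1 = m + 1 := by omega
    have e2 : m + 2 - (0 + 1) = m + 1 := by omega
    have e3 : m + 2 - (m + 1) = 1 := by omega
    have e4 : m + 2 - (m + 2) = 0 := by omega
    have e5 : k + 3 = m + 2 := by omega
    rw [e1, e2, e3, e5, e4]
    simp only [zero_add, Nat.sub_zero]
    have f1 : G m (m + 1) 1 = 0 := by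
      rw [Gss, W]; push_cast
      rw [show (2 * (m : ℝ) + 1 - 2 * (m + 1) + 1) = 0 by ring]; simp
    have f2 : G m (m + 2) 1 = W m (m + 2) 1 * G m (m + 2) 0 := by
      have := Gss m (m + 1) 0
      simp only [zero_add] at this
      rw [f1, zero_add] at this
      exact this
    have f0 := F_eq m (by omega) 0 (by omega)
    have g1 : G m 1 0 = W m 1 0 := by rw [Gs0, G00, mul_one]
    have g2 : G m (m + 1) 0 = W m (m + 1) 0 * G m m 0 := Gs0 m m
    have g3 : G m (m + 2) 0 = W m (m + 2) 0 * G m (m + 1) 0 := Gs0 m (m + 1)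
    rw [f1, f2, f0, g1, g3, g2, G00, E_m]
    simp only [W, R]
    push_cast
    have p1 : (2 * (m : ℝ) - 1) ≠ 0 := by intro h; linarith
    have p2 : (m : ℝ) ≠ 0 := by intro h; linarith
    have p3 : ((2 * m).factorial : ℝ) ≠ 0 := by positivity
    rw [show (2 * ((m : ℝ) + 2) - 1) = 2 * m + 3 by ring,
      show (2 * (m : ℝ) + 1 - 2 * (m + 2) + 1) = -2 by ring,
      show (2 * (m : ℝ) + 1 - 2 * (m + 2) + 0) = -3 by ring,
      show (2 * (m : ℝ) + 1 - 2 * (m + 1) + 0) = -1 by ring,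
      show (2 * (m : ℝ) + 1 - 2 * 1 + 0) = 2 * m - 1 by ring]
    simp only [sub_zero]
    field_simp
    ring
  · intro u hu
    have := mem_range.1 hu
    rw [F_eq m (by omega) _ (by omega), F_eq m (by omega) _ (by omega), sub_self]

theorem result :
    (∀ m : ℕ, 2 ≤ m → B 3 (2 * m + 1) =
      3 * ((m : ℝ) + 2) / (4 ^ (m + 5) * ((2 * m).factorial : ℝ) * (m : ℝ) ^ 2 *
        ((m : ℝ) + 1) ^ 3 * (2 * (m : ℝ) - 1) * (2 * (m : ℝ) + 3))) ∧
    ∀ C : ℝ, 0 < C → ∃ M : ℕ, ∀ m : ℕ, M ≤ m →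
      |B 3 (2 * m + 1)| < C ^ m / (m.factorial : ℝ) := by
  refine ⟨closed, fun C hC => ?_⟩
  have h := (FloorSemiring.tendsto_pow_div_factorial_atTop (1 / C)).eventually
    (gt_mem_nhds (show (0 : ℝ) < 1 by norm_num))
  obtain ⟨M, hM⟩ := Filter.eventually_atTop.1 h
  refine ⟨max M 2, fun m hm => ?_⟩
  have h2 : 2 ≤ m := le_trans (le_max_right _ _) hm
  have h3 := hM m (le_trans (le_max_left _ _) hm)
  have hm' : (2 : ℝ) ≤ m := by exact_mod_cast h2
  have hf : (0 : ℝ) < m.factorial := by positivity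
  have hff : (m.factorial : ℝ) * m.factorial ≤ (2 * m).factorial := by
    have := Nat.factorial_mul_factorial_dvd_factorial_add m m
    have := Nat.le_of_dvd (Nat.factorial_pos _) this
    rw [two_mul]
    exact_mod_cast this
  have p1 : (0 : ℝ) < 2 * (m : ℝ) - 1 := by linarith
  rw [closed m h2, abs_of_pos (by positivity)]
  have h4 : 1 / (m.factorial : ℝ) < C ^ m := by
    rw [div_pow, one_pow, div_div, div_lt_one (by positivity)] at h3
    rw [div_lt_iff₀ hf]; exact h3
  have h5 : 1 / ((m.factorial : ℝ) * m.factorial) < C ^ m / m.factorial := by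
    rw [← div_div]; exact div_lt_div_of_pos_right h4 hf
  refine lt_of_le_of_lt ?_ h5
  refine le_trans ?_ (one_div_le_one_div_of_le (by positivity) hff)
  rw [div_le_div_iff₀ (by positivity) (by positivity)]
  have q1 : (1 : ℝ) ≤ 4 ^ (m + 5) := one_le_pow₀ (by norm_num)
  have q2 : (1 : ℝ) ≤ (m : ℝ) ^ 2 := one_le_pow₀ (by linarith)
  have q3 : (1 : ℝ) ≤ ((m : ℝ) + 1) ^ 3 := one_le_pow₀ (by linarith)
  have q4 : 3 * ((m : ℝ) + 2) ≤ (2 * (m : ℝ) - 1) * (2 * (m : ℝ) + 3) := by nlinarith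
  have q5 : (1 : ℝ) ≤ 4 ^ (m + 5) * (m : ℝ) ^ 2 * ((m : ℝ) + 1) ^ 3 :=
    one_le_mul_of_one_le_of_one_le (one_le_mul_of_one_le_of_one_le q1 q2) q3
  have q6 : (0 : ℝ) < (2 * m).factorial := by positivity
  calc 3 * ((m : ℝ) + 2) * (2 * m).factorial
      ≤ (1 * ((2 * (m : ℝ) - 1) * (2 * (m : ℝ) + 3))) * (2 * m).factorial := by
        rw [one_mul]; exact mul_le_mul_of_nonneg_right q4 q6.le
    _ ≤ ((4 ^ (m + 5) * (m : ℝ) ^ 2 * ((m : ℝ) + 1) ^ 3) *
          ((2 * (m : ℝ) - 1) * (2 * (m : ℝ) + 3))) * (2 * m).factorial := by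
        gcongr
    _ = _ := by ring

end Pool.Agent.Results.MP_46c8ea_co.ClosedForm
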